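import Pool.Agent.L5helper31.TG.Main
import Pool.Agent.L5helper30.TGRays
import Pool.Agent.L5helper75.TG.U2
import Pool.Agent.L5helper76.TGPnAll
import Pool.Agent.L5helper72.TG.ProdAll

/-!
# The volume gap for K-semistable toric Fano varieties of any dimension

Let `X` be a toric Fano variety of dimension `n` (normal, with any singularities; `-K_X` is an ample
`ℚ`-Cartier divisor, and then `X` is klt), and let `L ⊂ ℤ^n` be the set of the primitive generators of
the rays of its fan. Its anticanonical polytope is `P = {x ∈ ℝ^n : ⟨l, x⟩ ≥ -1 for all l ∈ L}`; then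
`vol(X) = (-K_X)^n = n! vol(P)`, and `X` is K-semistable if and only if the barycentre of `P` is `0`
(Wang-Zhu, Berman). The fan is complete if and only if `P` is bounded.

Theorem. For every `n ≥ 2` the maximum of `(-K_X)^n` over the K-semistable toric Fano varieties `X` of
dimension `n` which are not `ℙ^n` is `2 n^n` (the degree of the quadric), and it is attained
exactly by `ℙ^1 × ℙ^(n-1)`.

So, for toric varieties, `V_n = 2 n^n`, and the gap is `(n + 1)^n - 2 n^n`, for every `n`. We prove it for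
the finite sets `L` of arbitrary nonzero vectors of `ℤ^n` with `P` bounded and barycentre `0`. If the
vectors of `L` are not assumed to be primitive, these are the K-semistable toric log Fano pairs
`(X, Δ)` with standard coefficients: the vector `k l`, `l` primitive, stands for the coefficient
`1 - 1/k` of the divisor of `l`.

Proof. Let `M_1, ..., M_n ∈ L` be linearly independent, `d = |det M|`, and `y_i = ⟨M_i, x⟩ + 1`; this
maps `P` to a set `K` in the orthant `y ≥ 0` with barycentre `(1, ..., 1)` and volume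
`d vol(P)`. If `-∑_{i ∈ J} M_i ∈ L`, then `∑_{i ∈ J} y_i ≤ |J| + 1` on `K`, and on the other hand the
average of `∑_{i ∉ J} y_i` over `K` is `n - |J|`. The maximal volume for these two conditions is the one
of the product of the simplices `∑_{i ∈ J} y_i ≤ |J| + 1`, `∑_{i ∉ J} y_i ≤ n - |J| + 1`, which is
`(a + 1)^a / a! (b + 1)^b / b!`, `a = |J|`, `b = n - a`. For `J = ∅` this is `(n + 1)^n / n!`, so if
some `M` has `d ≥ 2`, then `n! vol(P) ≤ (n + 1)^n / 2 < 2 n^n`. Otherwise `L` is unimodular, and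
there are `M` and `J ≠ ∅` as above. If `J` can be chosen to be a proper subset, we get
`n! vol(P) ≤ C(n,a) (a + 1)^a (b + 1)^b ≤ 2 n^n`, with equality only for `a = 1` or `b = 1`, and if
`K` is the product. If not, `L = {M_1, ..., M_n, -∑ M_i}`, and `X = ℙ^n`.
-/

set_option autoImplicit false

open MeasureTheory Finset
open Pool.Agent.L5helper31

namespace Pool.Agent.Results.MP_d76efa_ag.ToricCase

/-- The pairing of an integral vector with a real vector. -/
def dot {n : ℕ} (l : Fin n → ℤ) (x : Fin n → ℝ) : ℝ := ∑ i, (l i : ℝ) * x i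

/-- The anticanonical polytope: all the `x` with `⟨l, x⟩ ≥ -1` for the `l ∈ L`. -/
def polytope {n : ℕ} (L : Finset (Fin n → ℤ)) : Set (Fin n → ℝ) := {x | ∀ l ∈ L, -1 ≤ dot l x}

/-- `L` is the set of the rays of a K-semistable toric Fano variety (with the boundary
coefficient `1 - 1/k` at the ray of `k` times a primitive vector): the vectors are not zero, the
polytope is bounded, and its barycentre is `0`. -/
structure IsKSemistable {n : ℕ} (L : Finset (Fin n → ℤ)) : Prop where
  zero : (0 : Fin n → ℤ) ∉ L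
  bounded : Bornology.IsBounded (polytope L)
  barycentre : ∀ i, ∫ x in polytope L, x i = 0

/-- The anticanonical degree `(-K_X)^n`: `n!` times the volume of the polytope. -/
noncomputable def vol {n : ℕ} (L : Finset (Fin n → ℤ)) : ℝ :=
  n.factorial * volume.real (polytope L)

/-- `L` is the set of the rays of the fan of `ℙ^n`: a basis of `ℤ^n`, and minus its sum. -/
def IsProjectiveSpace {n : ℕ} (L : Finset (Fin n → ℤ)) : Prop :=
  ∃ M : Fin n → (Fin n → ℤ), |(Matrix.of M).det| = 1 ∧ L = insert (-∑ i, M i) (univ.image M)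

/-- `L` is the set of the rays of the fan of `ℙ^1 × ℙ^(n-1)`: a basis `M` of `ℤ^n`, the vector `-M j`
for one `j`, and minus the sum of the `M i` with `i ≠ j`. -/
def IsLineTimesProjectiveSpace {n : ℕ} (L : Finset (Fin n → ℤ)) : Prop :=
  ∃ (M : Fin n → (Fin n → ℤ)) (j : Fin n), |(Matrix.of M).det| = 1 ∧
    L = insert (-M j) (insert (-∑ i ∈ univ.erase j, M i) (univ.image M))

/-- For every `n ≥ 2`: the largest degree of a K-semistable toric Fano variety of
dimension `n` other than `ℙ^n` is `2 n^n`, it is attained exactly by `ℙ^1 × ℙ^(n-1)`; the projective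
space is K-semistable of degree `(n + 1)^n`. -/
theorem result (n : ℕ) (hn : 2 ≤ n) :
    IsGreatest {v : ℝ | ∃ L : Finset (Fin n → ℤ), IsKSemistable L ∧ ¬ IsProjectiveSpace L ∧
      v = vol L} (2 * (n : ℝ) ^ n) ∧
    (∀ L : Finset (Fin n → ℤ), (IsKSemistable L ∧ ¬ IsProjectiveSpace L ∧
      vol L = 2 * (n : ℝ) ^ n) ↔ IsLineTimesProjectiveSpace L) ∧
    (∀ L : Finset (Fin n → ℤ), IsProjectiveSpace L →
      IsKSemistable L ∧ vol L = ((n : ℝ) + 1) ^ n) := by
  have hpol : ∀ L : Finset (Fin n → ℤ), polytope L = TG.polytope L := fun L => rfl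
  have hup : ∀ L : Finset (Fin n → ℤ), IsKSemistable L → ¬ IsProjectiveSpace L →
      vol L < 2 * (n : ℝ) ^ n ∨ (IsLineTimesProjectiveSpace L ∧ vol L = 2 * (n : ℝ) ^ n) := by
    intro L hL hP
    rcases TG.main n hn L hL.zero hL.bounded hL.barycentre with h | ⟨M, j, hM, h1, h2⟩ | ⟨M, hM, h1⟩
    · exact Or.inl h
    · exact Or.inr ⟨⟨M, j, hM, TG.prod_rays hn M hM j L hL.zero h1⟩, h2⟩
    · exact absurd ⟨M, hM, h1⟩ hP
  have hprod : ∀ L : Finset (Fin n → ℤ), IsLineTimesProjectiveSpace L →
      IsKSemistable L ∧ ¬ IsProjectiveSpace L ∧ vol L = 2 * (n : ℝ) ^ n := by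
    rintro L ⟨M, j, hM, rfl⟩
    obtain ⟨h1, h2, h3, h4⟩ := TG.prod_all hn M hM j
    refine ⟨⟨h1, h2, h3⟩, ?_, h4⟩
    rintro ⟨M', hM', h⟩
    exact TG.prod_ne_pn hn M M' hM hM' j h
  refine ⟨⟨?_, ?_⟩, ?_, ?_⟩
  · have hone : |(Matrix.of (fun i : Fin n => (Pi.single i 1 : Fin n → ℤ))).det| = 1 := by
      have : Matrix.of (fun i : Fin n => (Pi.single i 1 : Fin n → ℤ)) = 1 := by
        ext a b
        rw [Matrix.of_apply, Matrix.one_apply, Pi.single_apply]
        simp only [eq_comm]
      rw [this, Matrix.det_one, abs_one]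
    obtain ⟨h1, h2, h3⟩ := hprod _ ⟨fun i => Pi.single i 1, ⟨0, by omega⟩, hone, rfl⟩
    exact ⟨_, h1, h2, h3.symm⟩
  · rintro v ⟨L, h1, h2, rfl⟩
    rcases hup L h1 h2 with h | h
    · exact h.le
    · exact h.2.le
  · intro L
    refine ⟨?_, hprod L⟩
    rintro ⟨h1, h2, h3⟩
    rcases hup L h1 h2 with h | h
    · exact absurd h3 h.ne
    · exact h.1
  · rintro L ⟨M, hM, rfl⟩
    obtain ⟨h1, h2, h3, h4⟩ := TG.pn_all (by omega) M hM
    exact ⟨⟨h1, h2, h3⟩, h4⟩

end Pool.Agent.Results.MP_d76efa_ag.ToricCase
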